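import Mathlib
import Pool.Agent.P.MP_eeb913_an.Defs
import Pool.Agent.P.MP_eeb913_an.Henon

namespace Pool.Agent.Results.MP_eeb913_an.TwoEquilibria

open MeasureTheory Pool.Agent.P.MP_eeb913_an

/-- There are a complex Henon map `f (x, y) = (p x - a y, x)` and a Lipschitz weight with two
distinct equilibrium states. -/
theorem result : ∃ (p : Polynomial ℂ) (a : ℂ), 2 ≤ p.natDegree ∧ a ≠ 0 ∧
    ∃ φ : ℂ × ℂ → ℝ,
      (∃ C : ℝ, ∀ z w : ℂ × ℂ,
        |φ z - φ w| ≤ C * Real.sqrt (‖z.1 - w.1‖ ^ 2 + ‖z.2 - w.2‖ ^ 2)) ∧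
      (∃ B : ℝ, ∀ z : ℂ × ℂ, |φ z| ≤ B) ∧
      ∃ μ₁ μ₂ : Measure (ℂ × ℂ), μ₁ ≠ μ₂ ∧
        IsEquilibrium (fun z : ℂ × ℂ => (p.eval z.1 - a * z.2, z.1)) φ μ₁ ∧
        IsEquilibrium (fun z : ℂ × ℂ => (p.eval z.1 - a * z.2, z.1)) φ μ₂ := by
  refine ⟨Polynomial.C (-1 / 4) * Polynomial.X ^ 3 + Polynomial.C (3 / 4) * Polynomial.X,
    -1 / 2, ?_, by norm_num, φ, ⟨_, φ_lip⟩, ⟨4 * Real.log 8 + Real.log 2, fun z => ?_⟩,
    Measure.dirac (1, 1), Measure.dirac (-1, -1), ?_, ?_⟩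
  · have : (Polynomial.C (-1 / 4 : ℂ) * Polynomial.X ^ 3 +
        Polynomial.C (3 / 4) * Polynomial.X).natDegree = 3 := by
      compute_degree!
    omega
  · unfold φ
    have h0 : 0 ≤ min 1 (min (N 1 z) (N (-1) z)) :=
      le_min zero_le_one (le_min (N_nonneg _ _) (N_nonneg _ _))
    rw [abs_mul, abs_neg, abs_of_nonneg M_nonneg, abs_of_nonneg h0]
    exact mul_le_of_le_one_right M_nonneg (min_le_left _ _)
  · intro h
    have h1 := dirac_eq_dirac_iff.mp h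
    simp only [Prod.mk.injEq] at h1
    norm_num at h1
  · have hF : (fun z : ℂ × ℂ => ((Polynomial.C (-1 / 4 : ℂ) * Polynomial.X ^ 3 +
        Polynomial.C (3 / 4) * Polynomial.X).eval z.1 - (-1 / 2) * z.2, z.1)) = F := by
      funext z
      simp only [F, Polynomial.eval_add, Polynomial.eval_mul, Polynomial.eval_C,
        Polynomial.eval_pow, Polynomial.eval_X, Prod.mk.injEq, and_true]
      ring
    rw [hF]
    exact ⟨isEquilibrium_dirac (Or.inl rfl), isEquilibrium_dirac (Or.inr rfl)⟩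

end Pool.Agent.Results.MP_eeb913_an.TwoEquilibria
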