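import Mathlib
import Pool.Agent.P.MP_eeb913_an.Defs
import Pool.Agent.P.MP_eeb913_an.U.HL
import Pool.Agent.P.MP_eeb913_an.U.Main

namespace Pool.Agent.Results.MP_eeb913_an.UniqueEquilibrium

open MeasureTheory Pool.Agent.P.MP_eeb913_an

/-- One Henon factor `(x, y) ↦ (p x - a y, x)`, given by the pair `(p, a)`. -/
noncomputable def factor (q : Polynomial ℂ × ℂ) (z : ℂ × ℂ) : ℂ × ℂ :=
  (q.1.eval z.1 - q.2 * z.2, z.1)

/-- The composition `f₁ ∘ ⋯ ∘ f_m` of the Henon factors of the list `[q₁, …, q_m]`. -/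
noncomputable def henon (L : List (Polynomial ℂ × ℂ)) : ℂ × ℂ → ℂ × ℂ :=
  L.foldr (fun q g => factor q ∘ g) id

/-- The set `K` of points having a bounded full orbit. -/
def boundedOrbits (f : ℂ × ℂ → ℂ × ℂ) : Set (ℂ × ℂ) :=
  {z | ∃ o : ℤ → ℂ × ℂ, o 0 = z ∧ (∀ n, o (n + 1) = f (o n)) ∧
    Bornology.IsBounded (Set.range o)}

/-- For every complex Henon map of algebraic degree `d`, every Holder weight whose oscillation on
`K` is less than `c = log d` has exactly one equilibrium state. -/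
theorem result (L : List (Polynomial ℂ × ℂ)) (hne : L ≠ [])
    (hL : ∀ q ∈ L, 2 ≤ q.1.natDegree ∧ q.2 ≠ 0) :
    ∃ c : ℝ, 0 < c ∧ c = Real.log ((L.map fun q => q.1.natDegree).prod : ℕ) ∧
      ∀ φ : ℂ × ℂ → ℝ,
        (∃ C α : ℝ, 0 < α ∧ ∀ z w : ℂ × ℂ,
          |φ z - φ w| ≤ C * Real.sqrt (‖z.1 - w.1‖ ^ 2 + ‖z.2 - w.2‖ ^ 2) ^ α) →
        (∃ c' : ℝ, c' < c ∧
          ∀ z ∈ boundedOrbits (henon L), ∀ w ∈ boundedOrbits (henon L), φ z - φ w ≤ c') →
        ∃! μ : Measure (ℂ × ℂ), IsEquilibrium (henon L) φ μ := by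
  obtain ⟨g, R₀, h⟩ := U.isHL_henonMap L hne hL
  have e : henon L = U.henonMap L := rfl
  rw [e]
  refine ⟨_, Real.log_pos (by exact_mod_cast h.two_le), rfl, ?_⟩
  rintro φ ⟨C, α, hα, hC⟩ ⟨c', hc', hosc⟩
  refine U.existsUnique_equilibrium h hα (H := |C| * 2 ^ α) (fun z w => (hC z w).trans ?_)
    (fun x hx => ?_) hc' hosc
  · have h1 : Real.sqrt (‖z.1 - w.1‖ ^ 2 + ‖z.2 - w.2‖ ^ 2) ≤ 2 * ‖z - w‖ := by
      have a1 : ‖z.1 - w.1‖ ≤ ‖z - w‖ := norm_fst_le (z - w)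
      have a2 : ‖z.2 - w.2‖ ≤ ‖z - w‖ := norm_snd_le (z - w)
      rw [Real.sqrt_le_iff]
      refine ⟨by positivity, ?_⟩
      nlinarith [norm_nonneg (z.1 - w.1), norm_nonneg (z.2 - w.2)]
    rw [mul_assoc, ← Real.mul_rpow (by norm_num) (norm_nonneg _)]
    exact mul_le_mul (le_abs_self C) (Real.rpow_le_rpow (Real.sqrt_nonneg _) h1 hα.le)
      (by positivity) (abs_nonneg C)
  · refine ⟨fun n => Int.rec (fun k => (U.henonMap L)^[k] x) (fun k => g^[k + 1] x) n, rfl,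
      fun n => ?_, ?_⟩
    · rcases n with k | k
      · exact Function.iterate_succ_apply' _ k x
      · rcases k with _ | k
        · exact (h.fg x).symm
        · change g^[k + 1] x = U.henonMap L (g^[k + 1 + 1] x)
          rw [Function.iterate_succ_apply' g (k + 1), h.fg]
    · refine (Metric.isBounded_closedBall (x := 0) (r := R₀)).subset ?_
      rintro _ ⟨n, rfl⟩
      rw [mem_closedBall_zero_iff]
      rcases n with k | k
      · exact (hx k).1
      · exact (hx (k + 1)).2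

end Pool.Agent.Results.MP_eeb913_an.UniqueEquilibrium
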